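import Pool.Agent.Helper13_FK.Stmts
import Pool.Agent.Helper43_Frey.OrdCount

/-!
# Squad FK, module BOX: the size of the box
-/

set_option linter.unusedSectionVars false

open NumberField Module

noncomputable section

namespace Pool.Agent.FK.H43

open Helper43Frey

/-- the integers of one field with bounded conjugates -/
def bO (L : Type) [Field L] (R : ℝ) : Set (𝓞 L) := {x | ∀ σ : L →+* ℂ, ‖σ (x : L)‖ ≤ R}

section

variable (L : Type) [Field L] [NumberField L]

theorem bO_image (R : ℝ) : (fun x : 𝓞 L => (x : L)) '' (bO L R) = bal L R := by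
  ext x
  constructor
  · rintro ⟨y, hy, rfl⟩
    exact ⟨y.2, hy⟩
  · rintro ⟨hx, h⟩
    exact ⟨⟨x, hx⟩, h, rfl⟩

theorem coe_inj : Function.Injective (fun x : 𝓞 L => (x : L)) := RingOfIntegers.coe_injective

theorem bO_finite (R : ℝ) : (bO L R).Finite :=
  Set.Finite.of_finite_image (by rw [bO_image]; exact bal_finite L R) (coe_inj L).injOn

theorem bO_ncard (R : ℝ) : (bO L R).ncard = (bal L R).ncard := by
  rw [← bO_image, Set.ncard_image_of_injective _ (coe_inj L)]

theorem bO_upper {R : ℝ} (hR : 0 ≤ R) :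
    ((bO L R).ncard : ℝ) ≤ (2 * R + 1) ^ finrank ℚ L := by
  have h := card_bal_le (K := L) ⊤ (R := R) (⌊2 * R⌋₊ + 1) (by
    push_cast
    exact Nat.lt_floor_add_one _)
  rw [finrank_top, Submodule.top_coe, Set.inter_univ, ← bO_ncard] at h
  calc ((bO L R).ncard : ℝ) ≤ (((⌊2 * R⌋₊ + 1) ^ finrank ℚ L : ℕ) : ℝ) := by exact_mod_cast h
    _ = ((⌊2 * R⌋₊ : ℝ) + 1) ^ finrank ℚ L := by push_cast; rfl
    _ ≤ _ := by
      apply pow_le_pow_left₀ (by positivity)
      have := Nat.floor_le (show 0 ≤ 2 * R by linarith)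
      linarith

theorem bO_lower : ∃ c : ℝ, 0 < c ∧ ∀ H : ℝ, 1 ≤ H → c * H ^ finrank ℚ L ≤ (bO L H).ncard := by
  have hD1 : 1 ≤ |(discr L : ℝ)| := by
    rw [← Int.cast_abs]
    exact_mod_cast Int.one_le_abs (discr_ne_zero L)
  have hD : 0 < Real.sqrt |(discr L : ℝ)| := Real.sqrt_pos.2 (by linarith)
  refine ⟨(1 / 2) ^ finrank ℚ L / Real.sqrt |(discr L : ℝ)|, by positivity, fun H hH => ?_⟩
  have h := card_bal_ge (K := L) (R := H) (by linarith)
  rw [bO_ncard, div_mul_eq_mul_div, div_le_iff₀ hD]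
  calc (1 / 2 : ℝ) ^ finrank ℚ L * H ^ finrank ℚ L = (H / 2) ^ finrank ℚ L := by
        rw [← mul_pow]
        congr 1
        ring
    _ ≤ _ := h

end

theorem ncard_pi {ι : Type} [Fintype ι] {β : ι → Type} (s : ∀ i, Set (β i)) :
    (Set.pi Set.univ s).ncard = ∏ i, (s i).ncard := by
  simp only [← Nat.card_coe_set_eq]
  rw [Nat.card_congr (Equiv.Set.univPi s), Nat.card_pi]

section

variable {ι : Type} [Fintype ι] (K : ι → Type) [∀ a, Field (K a)] [∀ a, NumberField (K a)]

theorem Box_eq (R : ℝ) : Box K R = Set.pi Set.univ (fun a => bO (K a) R) := by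
  ext e
  simp only [Box, Set.mem_ofPred_eq, Set.mem_pi, Set.mem_univ, true_imp_iff, bO, cj]
  constructor
  · intro h a σ
    exact h ⟨a, σ⟩
  · rintro h ⟨a, σ⟩
    exact h a σ

theorem Box_finite (R : ℝ) : (Box K R).Finite := by
  rw [Box_eq]
  exact Set.Finite.pi' (fun a => bO_finite (K a) R) |>.subset (by
    intro e he a
    exact he a (Set.mem_univ a))

theorem Box_ncard (R : ℝ) : (Box K R).ncard = ∏ a, (bO (K a) R).ncard := by
  rw [Box_eq, ncard_pi]

theorem card_Emb : Fintype.card (Emb K) = ∑ a, finrank ℚ (K a) := by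
  refine Fintype.card_sigma.trans ?_
  exact Finset.sum_congr rfl fun a _ => Embeddings.card (K a) ℂ

end

/-- BOX -/
theorem box : BoxStmt := by
  intro ι _ K _ _
  refine ⟨fun R hR => ⟨Box_finite K R, ?_⟩, ?_⟩
  · rw [Box_ncard, card_Emb, Nat.cast_prod, ← Finset.prod_pow_eq_pow_sum]
    exact Finset.prod_le_prod (fun a _ => Nat.cast_nonneg _) fun a _ => bO_upper (K a) hR
  · choose c hc1 hc2 using fun a => bO_lower (K a)
    refine ⟨∏ a, c a, Finset.prod_pos fun a _ => hc1 a, fun H hH => ?_⟩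
    rw [Box_ncard, card_Emb, Nat.cast_prod, ← Finset.prod_pow_eq_pow_sum,
      ← Finset.prod_mul_distrib]
    refine Finset.prod_le_prod (fun a _ => ?_) fun a _ => hc2 a H hH
    have := hc1 a
    positivity

end Pool.Agent.FK.H43
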