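import Pool.Agent.Helper43_FK.BOX

/-!
# Squad FK, module IDL: small elements in a coset of an ideal
-/

set_option linter.unusedSectionVars false

open NumberField Module

noncomputable section

namespace Pool.Agent.FK.H43

open Helper43Frey

variable {L : Type} [Field L] [NumberField L]

theorem val_add (x y : 𝓞 L) : ((x + y : 𝓞 L) : L) = x + y := rfl

theorem val_sub (x y : 𝓞 L) : ((x - y : 𝓞 L) : L) = x - y := rfl

theorem val_mul (x y : 𝓞 L) : ((x * y : 𝓞 L) : L) = x * y := rfl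

theorem val_neg (x : 𝓞 L) : ((-x : 𝓞 L) : L) = -x := rfl

theorem val_zero : ((0 : 𝓞 L) : L) = 0 := rfl

theorem norm_cast_eq (z : 𝓞 L) :
    ((Algebra.norm ℤ z : ℤ) : ℂ) = ∏ σ : L →+* ℂ, σ (z : L) := by
  have h := Algebra.norm_eq_prod_embeddings ℚ ℂ (z : L)
  rw [← Algebra.coe_norm_int] at h
  have h1 : ∏ σ : L →ₐ[ℚ] ℂ, σ (z : L) = ∏ σ : L →+* ℂ, σ (z : L) :=
    (Fintype.prod_equiv (RingHom.equivRatAlgHom L ℂ) (fun f => f (z : L))
      (fun φ => φ (z : L)) fun _ => by simp [RingHom.equivRatAlgHom_apply]).symm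
  rw [← h1, ← h]
  simp

/-- pigeonhole in a lattice of integers -/
theorem pigeon (M : Submodule ℤ (𝓞 L)) (Y : Set (𝓞 L)) {H r : ℝ}
    (hY : ∀ y ∈ Y, ∀ σ : L →+* ℂ, ‖σ (y : L)‖ ≤ H) (hM : ∀ y ∈ Y, ∀ y' ∈ Y, y - y' ∈ M)
    (hmin : ∀ z ∈ M, (∀ σ : L →+* ℂ, ‖σ (z : L)‖ < r) → z = 0) (m : ℕ) (hm0 : 0 < m)
    (hm : 2 * H < m * r) :
    Y.ncard ≤ m ^ finrank ℚ L := by
  classical
  rcases Y.eq_empty_or_nonempty with rfl | ⟨y₀, hy₀⟩
  · rw [Set.ncard_empty]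
    exact Nat.zero_le _
  let b := Module.finBasis ℤ M
  have hr : finrank ℤ M ≤ finrank ℚ L := by
    rw [← RingOfIntegers.rank]
    exact Submodule.finrank_le M
  have : NeZero m := ⟨hm0.ne'⟩
  have h1 : ∀ x ∈ Y, ∃ y : M, (y : 𝓞 L) = x - y₀ := fun x hx =>
    ⟨⟨x - y₀, hM x hx y₀ hy₀⟩, rfl⟩
  choose! f hf using h1
  let Φ : 𝓞 L → (Fin (finrank ℤ M) → ZMod m) := fun x i => (b.repr (f x) i : ZMod m)
  have hinj : Set.InjOn Φ Y := by
    intro x hx y hy hxy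
    have h2 : ∀ i, ((m : ℕ) : ℤ) ∣ b.repr (f x) i - b.repr (f y) i := by
      intro i
      rw [← ZMod.intCast_zmod_eq_zero_iff_dvd, Int.cast_sub]
      exact sub_eq_zero.2 (congrFun hxy i)
    choose c hc using h2
    have h3 : f x - f y = (m : ℤ) • ∑ i, c i • b i := by
      rw [← b.sum_repr (f x - f y), Finset.smul_sum]
      apply Finset.sum_congr rfl
      intro i _
      rw [map_sub, Finsupp.sub_apply, hc i, mul_smul]
    set z : M := ∑ i, c i • b i with hz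
    have h4 : x - y = (m : 𝓞 L) * (z : 𝓞 L) := by
      have h5 := congrArg (fun t : M => (t : 𝓞 L)) h3
      simp only [Submodule.coe_sub, Submodule.coe_smul] at h5
      rw [hf x hx, hf y hy, sub_sub_sub_cancel_right] at h5
      rw [h5, zsmul_eq_mul, Int.cast_natCast]
    have h6 : (z : 𝓞 L) = 0 := by
      apply hmin _ z.2
      intro σ
      have h7 : ‖σ ((x : L) - (y : L))‖ ≤ H + H := by
        rw [map_sub]
        exact (norm_sub_le _ _).trans (add_le_add (hY x hx σ) (hY y hy σ))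
      have h8 : (x : L) - (y : L) = (m : L) * ((z : 𝓞 L) : L) := by
        rw [← map_sub, h4, map_mul, map_natCast]
      rw [h8, map_mul, norm_mul, map_natCast, Complex.norm_natCast] at h7
      have hm0' : (0 : ℝ) < m := by exact_mod_cast hm0
      exact lt_of_mul_lt_mul_left (by linarith) hm0'.le
    rw [h6, mul_zero, sub_eq_zero] at h4
    exact h4
  calc Y.ncard = (Φ '' Y).ncard := hinj.ncard_image.symm
    _ ≤ (Set.univ : Set (Fin (finrank ℤ M) → ZMod m)).ncard :=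
        Set.ncard_le_ncard (Set.subset_univ _) Set.finite_univ
    _ = m ^ finrank ℤ M := by
        rw [Set.ncard_univ, Nat.card_eq_fintype_card, Fintype.card_fun, ZMod.card, Fintype.card_fin]
    _ ≤ m ^ finrank ℚ L := Nat.pow_le_pow_right hm0 hr

/-- elements of an ideal over `p ^ 2` are large -/
theorem idl_min {B : ℕ → ValuationSubring ℂ} (hB : GoodB B) (vzi : VziStmt) {p : ℕ}
    (hp : p.Prime) (τ : L →+* ℂ) (z : 𝓞 L)
    (hz : (B p).valuation (τ (z : L)) ≤ (B p).valuation (p : ℂ) ^ 2) {r : ℝ} (_hr0 : 0 ≤ r)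
    (hr : r ^ finrank ℚ L ≤ (p : ℝ) ^ 2) (hs : ∀ σ : L →+* ℂ, ‖σ (z : L)‖ < r) : z = 0 := by
  classical
  by_contra hz0
  have hint : ∀ σ : L →+* ℂ, (B p).valuation (σ (z : L)) ≤ 1 := by
    intro σ
    rw [ValuationSubring.valuation_le_one_iff]
    apply (hB p hp).1
    exact z.2.map (σ.toIntAlgHom)
  have h1 : (B p).valuation ((Algebra.norm ℤ z : ℤ) : ℂ) ≤ (B p).valuation (p : ℂ) ^ 2 := by
    rw [norm_cast_eq, map_prod, ← Finset.mul_prod_erase Finset.univ _ (Finset.mem_univ τ)]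
    refine (mul_le_of_le_one_right' ?_).trans hz
    exact Finset.prod_le_one' fun σ _ => hint σ
  rw [(vzi B hB p hp _).2 2] at h1
  have hN0 : Algebra.norm ℤ z ≠ 0 := Algebra.norm_ne_zero_iff.2 hz0
  have h2 : ((p : ℤ) ^ 2 : ℤ) ≤ |Algebra.norm ℤ z| := Int.le_of_dvd (abs_pos.2 hN0)
    ((dvd_abs _ _).2 h1)
  have h3 : ((p : ℝ) ^ 2 : ℝ) ≤ |((Algebra.norm ℤ z : ℤ) : ℝ)| := by exact_mod_cast h2
  have h4 : |((Algebra.norm ℤ z : ℤ) : ℝ)| = ∏ σ : L →+* ℂ, ‖σ (z : L)‖ := by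
    rw [← norm_prod, ← norm_cast_eq, Complex.norm_intCast]
  have h5 : ∏ σ : L →+* ℂ, ‖σ (z : L)‖ < ∏ _σ : L →+* ℂ, r := by
    obtain ⟨σ₀⟩ := (inferInstance : Nonempty (L →+* ℂ))
    refine Finset.prod_lt_prod_of_nonempty (fun σ _ => ?_) (fun σ _ => hs σ) ⟨σ₀, Finset.mem_univ _⟩
    rw [norm_pos_iff]
    intro h6
    apply hz0
    apply coe_inj L
    exact (map_eq_zero σ).1 h6
  rw [Finset.prod_const, Finset.card_univ, Embeddings.card L ℂ] at h5
  rw [h4] at h3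
  linarith

/-- the submodule -/
def idM (A : ValuationSubring ℂ) (τ : L →+* ℂ) (p : ℕ) : Submodule ℤ (𝓞 L) :=
  AddSubgroup.toIntSubmodule
    { carrier := {z | A.valuation (τ (z : L)) ≤ A.valuation (p : ℂ) ^ 2}
      add_mem' := by
        intro x y hx hy
        simp only [Set.mem_ofPred_eq] at hx hy ⊢
        rw [val_add, map_add]
        exact (Valuation.map_add _ _ _).trans (max_le hx hy)
      zero_mem' := by
        simp only [Set.mem_ofPred_eq]
        rw [val_zero, map_zero, map_zero]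
        exact zero_le
      neg_mem' := by
        intro x hx
        simp only [Set.mem_ofPred_eq] at hx ⊢
        rw [val_neg, map_neg, Valuation.map_neg]
        exact hx }

theorem mem_idM {A : ValuationSubring ℂ} {τ : L →+* ℂ} {p : ℕ} {z : 𝓞 L} :
    z ∈ idM A τ p ↔ A.valuation (τ (z : L)) ≤ A.valuation (p : ℂ) ^ 2 := Iff.rfl

/-- IDL -/
theorem idl : VziStmt → IdlStmt := by
  intro vzi B hB L _ _
  set n := finrank ℚ L with hn
  have hnpos : 0 < n := finrank_pos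
  refine ⟨4 ^ n, fun H p τ w hH hp => ?_⟩
  set Y : Set (𝓞 L) := {y : 𝓞 L | (∀ σ : L →+* ℂ, ‖σ (y : L)‖ ≤ H) ∧
      (B p).valuation (w - τ (y : L)) ≤ (B p).valuation (p : ℂ) ^ 2} with hYdef
  have hp0 : (0 : ℝ) < p := by exact_mod_cast hp.pos
  set r : ℝ := ((p : ℝ) ^ 2) ^ ((1 : ℝ) / n) with hrdef
  have hr0 : 0 < r := by positivity
  have hrn : r ^ n = (p : ℝ) ^ 2 := by
    rw [hrdef, one_div]
    exact Real.rpow_inv_natCast_pow (by positivity) hnpos.ne'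
  have h1 : 2 * H < ((⌊2 * H / r⌋₊ + 1 : ℕ) : ℝ) * r := by
    rw [← div_lt_iff₀ hr0]
    push_cast
    exact Nat.lt_floor_add_one _
  have h2 := pigeon (idM (B p) τ p) Y (H := H) (r := r) (fun y hy => hy.1)
    (fun y hy y' hy' => by
      rw [mem_idM]
      have h3 : τ ((y - y' : 𝓞 L) : L) = (w - τ (y' : L)) - (w - τ (y : L)) := by
        rw [val_sub, map_sub]
        ring
      rw [h3]
      exact (Valuation.map_sub _ _ _).trans (max_le hy'.2 hy.2))
    (fun z hz hs => idl_min hB vzi hp τ z (mem_idM.1 hz) hr0.le hrn.le hs)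
    (⌊2 * H / r⌋₊ + 1) (Nat.succ_pos _) h1
  have h3 : (Y.ncard : ℝ) ≤ ((⌊2 * H / r⌋₊ : ℝ) + 1) ^ n := by exact_mod_cast h2
  have h4 : ((⌊2 * H / r⌋₊ : ℝ) + 1) ^ n ≤ (2 * H / r + 1) ^ n := by
    apply pow_le_pow_left₀ (by positivity)
    have := Nat.floor_le (show 0 ≤ 2 * H / r by positivity)
    linarith
  have h5 : (2 * H / r + 1) ^ n ≤ 2 ^ (n - 1) * ((2 * H / r) ^ n + 1 ^ n) :=
    add_pow_le (by positivity) zero_le_one n
  have h6 : (2 * H / r) ^ n = 2 ^ n * (H ^ n / (p : ℝ) ^ 2) := by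
    rw [div_pow, mul_pow, hrn, mul_div_assoc]
  rw [h6, one_pow] at h5
  have h7 : (0 : ℝ) ≤ H ^ n / (p : ℝ) ^ 2 := by positivity
  have h8 : (2 : ℝ) ^ (n - 1) ≤ 2 ^ n := pow_le_pow_right₀ (by norm_num) (Nat.sub_le _ _)
  have h9 : (1 : ℝ) ≤ 2 ^ n := one_le_pow₀ (by norm_num)
  calc (Y.ncard : ℝ) ≤ 2 ^ (n - 1) * (2 ^ n * (H ^ n / (p : ℝ) ^ 2) + 1) :=
        (h3.trans h4).trans h5
    _ ≤ 2 ^ n * (2 ^ n * (H ^ n / (p : ℝ) ^ 2) + 2 ^ n) := by
        apply mul_le_mul h8 _ (by positivity) (by positivity)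
        linarith
    _ = 4 ^ n * (1 + H ^ n / (p : ℝ) ^ 2) := by
        have : (4 : ℝ) ^ n = 2 ^ n * 2 ^ n := by rw [← mul_pow]; norm_num
        rw [this]
        ring

end Pool.Agent.FK.H43
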