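import Pool.Agent.Helper43_FK.IDL

/-!
# Squad FK, module OWN: large squares in one field
-/

set_option linter.unusedSectionVars false

open NumberField Module

noncomputable section

namespace Pool.Agent.FK.H43

open Helper43Frey

variable {L : Type} [Field L] [NumberField L]

/-- the elements whose two conjugates are integral and congruent modulo `p ^ 2` -/
def ownA (V : ValuationSubring ℂ) (σ τ : L →+* ℂ) (p : ℕ) : Subring L where
  carrier := {x | V.valuation (σ x) ≤ 1 ∧ V.valuation (τ x) ≤ 1 ∧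
    V.valuation (σ x - τ x) ≤ V.valuation (p : ℂ) ^ 2}
  mul_mem' := by
    rintro x y ⟨a1, a2, a3⟩ ⟨b1, b2, b3⟩
    refine ⟨?_, ?_, ?_⟩
    · rw [map_mul, map_mul]
      exact mul_le_one' a1 b1
    · rw [map_mul, map_mul]
      exact mul_le_one' a2 b2
    · have h : σ (x * y) - τ (x * y) = σ x * (σ y - τ y) + (σ x - τ x) * τ y := by
        rw [map_mul, map_mul]
        ring
      rw [h]
      refine (Valuation.map_add _ _ _).trans (max_le ?_ ?_)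
      · rw [map_mul]
        exact (mul_le_of_le_one_left' a1).trans b3
      · rw [map_mul]
        exact (mul_le_of_le_one_right' b2).trans a3
  one_mem' := by
    refine ⟨?_, ?_, ?_⟩
    · rw [map_one, map_one]
    · rw [map_one, map_one]
    · rw [map_one, map_one, sub_self, map_zero]
      exact zero_le
  add_mem' := by
    rintro x y ⟨a1, a2, a3⟩ ⟨b1, b2, b3⟩
    refine ⟨?_, ?_, ?_⟩
    · rw [map_add]
      exact (Valuation.map_add _ _ _).trans (max_le a1 b1)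
    · rw [map_add]
      exact (Valuation.map_add _ _ _).trans (max_le a2 b2)
    · have h : σ (x + y) - τ (x + y) = (σ x - τ x) + (σ y - τ y) := by
        rw [map_add, map_add]
        ring
      rw [h]
      exact (Valuation.map_add _ _ _).trans (max_le a3 b3)
  zero_mem' := by
    refine ⟨?_, ?_, ?_⟩
    · rw [map_zero, map_zero]
      exact zero_le
    · rw [map_zero, map_zero]
      exact zero_le
    · rw [map_zero, map_zero, sub_self, map_zero]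
      exact zero_le
  neg_mem' := by
    rintro x ⟨a1, a2, a3⟩
    refine ⟨?_, ?_, ?_⟩
    · rw [map_neg, Valuation.map_neg]
      exact a1
    · rw [map_neg, Valuation.map_neg]
      exact a2
    · have h : σ (-x) - τ (-x) = -(σ x - τ x) := by
        rw [map_neg, map_neg]
        ring
      rw [h, Valuation.map_neg]
      exact a3

theorem mem_ownA {V : ValuationSubring ℂ} {σ τ : L →+* ℂ} {p : ℕ} {x : L} :
    x ∈ ownA V σ τ p ↔ V.valuation (σ x) ≤ 1 ∧ V.valuation (τ x) ≤ 1 ∧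
      V.valuation (σ x - τ x) ≤ V.valuation (p : ℂ) ^ 2 := Iff.rfl

theorem val_int {B : ℕ → ValuationSubring ℂ} (hB : GoodB B) {p : ℕ} (hp : p.Prime)
    (σ : L →+* ℂ) (x : 𝓞 L) : (B p).valuation (σ (x : L)) ≤ 1 := by
  rw [ValuationSubring.valuation_le_one_iff]
  apply (hB p hp).1
  exact x.2.map (σ.toIntAlgHom)

/-- the count for one prime and one pair -/
theorem own_one : ∃ C : ℝ, 0 < C ∧ ∀ {B : ℕ → ValuationSubring ℂ}, GoodB B → VziStmt →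
    ∀ (v : 𝓞 L) {p : ℕ}, p.Prime → ∀ (σ τ : L →+* ℂ),
      (B p).valuation (σ (v : L) - τ (v : L)) = 1 → ∀ H : ℝ, 1 ≤ H →
      ({x : 𝓞 L | (∀ σ : L →+* ℂ, ‖σ (x : L)‖ ≤ H) ∧
        (B p).valuation (σ (x : L) - τ (x : L)) ≤ (B p).valuation (p : ℂ) ^ 2}.ncard : ℝ) ≤
      C * (H ^ finrank ℚ L * ((p : ℝ) ^ 2)⁻¹ + H ^ ((finrank ℚ L : ℝ) / 2)) := by
  classical
  obtain ⟨C, hC, hord⟩ := ord (finrank ℚ L) finrank_pos
  refine ⟨C, hC, ?_⟩
  intro B hB vzi v p hp σ τ hv H hH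
  set T : Finset L := (Finset.range (p ^ 2)).image (fun k : ℕ => (k : L) * (v : L)) with hT
  have hval : ∀ k k' : ℕ, (B p).valuation (σ ((k : L) * v - k' * v) - τ ((k : L) * v - k' * v)) =
      (B p).valuation (((k : ℤ) - k' : ℤ) : ℂ) := by
    intro k k'
    have h : σ ((k : L) * v - k' * v) - τ ((k : L) * v - k' * v) =
        (((k : ℤ) - k' : ℤ) : ℂ) * (σ (v : L) - τ (v : L)) := by
      rw [map_sub, map_sub, map_mul, map_mul, map_mul, map_mul, map_natCast, map_natCast,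
        map_natCast, map_natCast]
      push_cast
      ring
    rw [h, map_mul, hv, mul_one]
  have hdvd : ∀ k ∈ Finset.range (p ^ 2), ∀ k' ∈ Finset.range (p ^ 2),
      (k : L) * v - k' * v ∈ ownA (B p) σ τ p → k = k' := by
    intro k hk k' hk' h
    rw [mem_ownA, hval] at h
    have h2 := ((vzi B hB p hp _).2 2).1 h.2.2
    rw [Finset.mem_range] at hk hk'
    have h3 : ((p ^ 2 : ℕ) : ℤ) ∣ (k : ℤ) - k' := by exact_mod_cast h2
    have h4 : (k : ℤ) ≡ k' [ZMOD ((p ^ 2 : ℕ) : ℤ)] := (Int.modEq_iff_dvd.2 h3).symm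
    exact Nat.ModEq.eq_of_lt_of_lt (Int.natCast_modEq_iff.1 h4) hk hk'
  have hcard : T.card = p ^ 2 := by
    rw [hT, Finset.card_image_of_injOn, Finset.card_range]
    intro k hk k' hk' h
    apply hdvd k hk k' hk'
    have h5 : (k : L) * (v : L) = (k' : L) * (v : L) := h
    rw [h5, sub_self]
    exact (ownA (B p) σ τ p).zero_mem
  have hTne : T.Nonempty := by
    rw [← Finset.card_pos, hcard]
    exact pow_pos hp.pos 2
  have h1 := hord L rfl (ownA (B p) σ τ p) T hTne (by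
      intro x hx
      obtain ⟨k, _, rfl⟩ := Finset.mem_image.1 hx
      exact (isIntegral_natCast k).mul v.2) (by
      intro x hx y hy h
      obtain ⟨k, hk, rfl⟩ := Finset.mem_image.1 hx
      obtain ⟨k', hk', rfl⟩ := Finset.mem_image.1 hy
      rw [hdvd k hk k' hk' h]) H hH
  rw [hcard] at h1
  have h2 : {x : 𝓞 L | (∀ σ : L →+* ℂ, ‖σ (x : L)‖ ≤ H) ∧
        (B p).valuation (σ (x : L) - τ (x : L)) ≤ (B p).valuation (p : ℂ) ^ 2}.ncard ≤
      (balO (ownA (B p) σ τ p) H).ncard := by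
    apply Set.ncard_le_ncard_of_injOn (fun x : 𝓞 L => (x : L)) _ (coe_inj L).injOn
      (balO_finite _ _)
    rintro x ⟨hx1, hx2⟩
    exact ⟨⟨x.2, hx1⟩, val_int hB hp σ x, val_int hB hp τ x, hx2⟩
  calc _ ≤ ((balO (ownA (B p) σ τ p) H).ncard : ℝ) := by exact_mod_cast h2
    _ ≤ _ := h1
    _ = _ := by push_cast; rw [div_eq_mul_inv]

/-- OWN -/
theorem own : VziStmt → OwnStmt := by
  intro vzi B hB L _ _ v _ δ hδ0 hδ1
  classical
  obtain ⟨C, hC, hone⟩ := own_one (L := L)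
  set n := finrank ℚ L with hn
  refine ⟨min δ (1 - δ), lt_min hδ0 (by linarith), 3 * C * (n * n), fun H hH => ?_⟩
  have hH0 : 0 < H := by linarith
  set X : ℝ := H ^ (1 - δ) with hX
  set Q : ℝ := H ^ ((n : ℝ) / 2 - δ) with hQ
  have hXp : 0 < X := by positivity
  have hQp : 0 < Q := by positivity
  let U : ℕ × (L →+* ℂ) × (L →+* ℂ) → Set (𝓞 L) := fun q =>
    {x : 𝓞 L | (∀ σ : L →+* ℂ, ‖σ (x : L)‖ ≤ H) ∧ q.1.Prime ∧
      (B q.1).valuation (q.2.1 (v : L) - q.2.2 (v : L)) = 1 ∧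
      (B q.1).valuation (q.2.1 (x : L) - q.2.2 (x : L)) ≤ (B q.1).valuation (q.1 : ℂ) ^ 2}
  let F : Finset (ℕ × (L →+* ℂ) × (L →+* ℂ)) :=
    Finset.Ioo ⌊X⌋₊ (⌊Q⌋₊ + 1) ×ˢ (Finset.univ ×ˢ Finset.univ)
  have hU : ∀ q, ((U q).ncard : ℝ) ≤ C * (H ^ n * ((q.1 : ℝ) ^ 2)⁻¹ + H ^ ((n : ℝ) / 2)) := by
    intro q
    by_cases h : q.1.Prime ∧ (B q.1).valuation (q.2.1 (v : L) - q.2.2 (v : L)) = 1
    · refine le_trans ?_ (hone hB vzi v h.1 q.2.1 q.2.2 h.2 H hH)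
      have h3 : U q ⊆ {x : 𝓞 L | (∀ σ : L →+* ℂ, ‖σ (x : L)‖ ≤ H) ∧
        (B q.1).valuation (q.2.1 (x : L) - q.2.2 (x : L)) ≤ (B q.1).valuation (q.1 : ℂ) ^ 2} :=
        fun x hx => ⟨hx.1, hx.2.2.2⟩
      exact_mod_cast Set.ncard_le_ncard h3 ((bO_finite L H).subset fun x hx => hx.1)
    · have h3 : U q = ∅ := by
        ext x
        simp only [Set.mem_empty_iff_false, iff_false]
        intro hx
        exact h ⟨hx.2.1, hx.2.2.1⟩
      rw [h3, Set.ncard_empty, Nat.cast_zero]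
      positivity
  have hsub : {x : 𝓞 L | (∀ σ : L →+* ℂ, ‖σ (x : L)‖ ≤ H) ∧ ∃ p : ℕ, p.Prime ∧
      X < p ∧ (p : ℝ) ≤ Q ∧ ∃ σ τ : L →+* ℂ, (B p).valuation (σ (v : L) - τ (v : L)) = 1 ∧
        (B p).valuation (σ (x : L) - τ (x : L)) ≤ (B p).valuation (p : ℂ) ^ 2} ⊆
      ⋃ q ∈ F, U q := by
    rintro x ⟨hx, p, hp, h1, h2, σ, τ, h3, h4⟩
    rw [Set.mem_iUnion₂]
    refine ⟨(p, σ, τ), ?_, hx, hp, h3, h4⟩
    rw [Finset.mem_product, Finset.mem_Ioo]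
    refine ⟨⟨?_, ?_⟩, by simp⟩
    · exact (Nat.floor_lt hXp.le).2 h1
    · exact Nat.lt_succ_of_le (Nat.le_floor h2)
  have hfin : (⋃ q ∈ F, U q).Finite :=
    (bO_finite L H).subset (by
      intro x hx
      rw [Set.mem_iUnion₂] at hx
      obtain ⟨q, _, h⟩ := hx
      exact h.1)
  have h1 : (({x : 𝓞 L | (∀ σ : L →+* ℂ, ‖σ (x : L)‖ ≤ H) ∧ ∃ p : ℕ, p.Prime ∧
      X < p ∧ (p : ℝ) ≤ Q ∧ ∃ σ τ : L →+* ℂ, (B p).valuation (σ (v : L) - τ (v : L)) = 1 ∧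
        (B p).valuation (σ (x : L) - τ (x : L)) ≤ (B p).valuation (p : ℂ) ^ 2}.ncard : ℕ) : ℝ) ≤
      ∑ q ∈ F, ((U q).ncard : ℝ) := by
    exact_mod_cast (Set.ncard_le_ncard hsub hfin).trans (Finset.set_ncard_biUnion_le F U)
  refine h1.trans ?_
  have hcardE : Fintype.card (L →+* ℂ) = n := Embeddings.card L ℂ
  have h2 : ∑ q ∈ F, ((U q).ncard : ℝ) ≤ ∑ p ∈ Finset.Ioo ⌊X⌋₊ (⌊Q⌋₊ + 1),
      (n * n : ℝ) * (C * (H ^ n * ((p : ℝ) ^ 2)⁻¹ + H ^ ((n : ℝ) / 2))) := by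
    rw [Finset.sum_product]
    refine Finset.sum_le_sum fun p _ => ?_
    refine (Finset.sum_le_card_nsmul _ _
      (C * (H ^ n * ((p : ℝ) ^ 2)⁻¹ + H ^ ((n : ℝ) / 2))) fun r _ => hU (p, r)).trans ?_
    rw [Finset.card_product, Finset.card_univ, hcardE, nsmul_eq_mul]
    push_cast
    exact le_refl _
  refine h2.trans ?_
  rw [← Finset.mul_sum, ← Finset.mul_sum, Finset.sum_add_distrib, ← Finset.mul_sum,
    Finset.sum_const, Nat.card_Ioo, nsmul_eq_mul]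
  have h3 : ∑ p ∈ Finset.Ioo ⌊X⌋₊ (⌊Q⌋₊ + 1), ((p : ℝ) ^ 2)⁻¹ ≤ 2 / X := by
    refine (sum_Ioo_inv_sq_le _ _).trans ?_
    apply div_le_div_of_nonneg_left (by norm_num) hXp
    exact (Nat.lt_floor_add_one X).le
  have h4 : ((⌊Q⌋₊ + 1 - ⌊X⌋₊ - 1 : ℕ) : ℝ) ≤ Q := by
    refine le_trans ?_ (Nat.floor_le hQp.le)
    exact_mod_cast (show ⌊Q⌋₊ + 1 - ⌊X⌋₊ - 1 ≤ ⌊Q⌋₊ by omega)
  have h5 : H ^ n * (2 / X) = 2 * H ^ ((n : ℝ) - (1 - δ)) := by
    rw [Real.rpow_sub hH0 (n : ℝ), Real.rpow_natCast, ← hX]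
    ring
  have h6 : Q * H ^ ((n : ℝ) / 2) = H ^ ((n : ℝ) - δ) := by
    rw [hQ, ← Real.rpow_add hH0]
    congr 1
    ring
  have h7 : H ^ ((n : ℝ) - (1 - δ)) ≤ H ^ ((n : ℝ) - min δ (1 - δ)) :=
    Real.rpow_le_rpow_of_exponent_le hH (by linarith [min_le_right δ (1 - δ)])
  have h8 : H ^ ((n : ℝ) - δ) ≤ H ^ ((n : ℝ) - min δ (1 - δ)) :=
    Real.rpow_le_rpow_of_exponent_le hH (by linarith [min_le_left δ (1 - δ)])
  have h9 : H ^ n * ∑ p ∈ Finset.Ioo ⌊X⌋₊ (⌊Q⌋₊ + 1), ((p : ℝ) ^ 2)⁻¹ ≤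
      2 * H ^ ((n : ℝ) - min δ (1 - δ)) := by
    calc _ ≤ H ^ n * (2 / X) := mul_le_mul_of_nonneg_left h3 (by positivity)
      _ = 2 * H ^ ((n : ℝ) - (1 - δ)) := h5
      _ ≤ _ := by linarith
  have h10 : ((⌊Q⌋₊ + 1 - ⌊X⌋₊ - 1 : ℕ) : ℝ) * H ^ ((n : ℝ) / 2) ≤
      H ^ ((n : ℝ) - min δ (1 - δ)) := by
    calc _ ≤ Q * H ^ ((n : ℝ) / 2) := mul_le_mul_of_nonneg_right h4 (by positivity)
      _ = _ := h6
      _ ≤ _ := h8
  calc (n * n : ℝ) * (C * (H ^ n * ∑ p ∈ Finset.Ioo ⌊X⌋₊ (⌊Q⌋₊ + 1), ((p : ℝ) ^ 2)⁻¹ +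
        ((⌊Q⌋₊ + 1 - ⌊X⌋₊ - 1 : ℕ) : ℝ) * H ^ ((n : ℝ) / 2))) ≤
      (n * n : ℝ) * (C * (2 * H ^ ((n : ℝ) - min δ (1 - δ)) +
        H ^ ((n : ℝ) - min δ (1 - δ)))) := by
        apply mul_le_mul_of_nonneg_left _ (by positivity)
        apply mul_le_mul_of_nonneg_left _ hC.le
        exact add_le_add h9 h10
    _ = _ := by ring

end Pool.Agent.FK.H43
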